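import Pool.Agent.Y951.EB.Fin

/-!
# Every block of digits occurs in `A_k = ∑ 1 / (k ^ n - 1)`, for every `k`

There is an absolute constant `c > 0` such that for every base `k ≥ 2` and every integer `h ≥ 1`
every finite block of base `k` digits occurs at least `N ^ c` times among the first `N` digits of
`h A_k`, for all large `N`.  So `A_k` and all its positive integer multiples are disjunctive (rich)
in base `k`: their block complexity is maximal, and their digit sequences are not `m`-automatic,
for any `m ≥ 2`.

Proof.  Erdős' construction makes the divisor numbers `τ(n + j)`, `j < 2L`, divisible by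
`k ^ (2L)` for all `n` of an arithmetic progression of modulus `D M`, except for one place `j = i`.
There we require `n + i = D p` with `p` prime and `D = 2 ^ d`, so that `τ(n + i) = 2 (d + 1)` is an
arbitrary even number.  The modulus `M = exp (O((log log n) ^ 4))` can be chosen not to be divisible
by the exceptional modulus, so that the progression contains the expected proportion of primes up
to a constant (Linnik's theorem in the form of a lower bound), and the contribution of the remaining
divisor numbers is small for almost all `n` of the progression.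
-/

set_option autoImplicit false

namespace Pool.Agent.Results.MP_29e051_nt.EveryBlockOccurs

open Finset

/-- The number `A_k = ∑_{n ≥ 1} 1 / (k ^ n - 1)`. -/
noncomputable def lambertValue (k : ℕ) : ℝ := ∑' n : ℕ, 1 / ((k : ℝ) ^ (n + 1) - 1)

/-- For `n ≥ 1`: the `n`-th digit after the radix point of the base `k` expansion of `x ≥ 0`. -/
noncomputable def digit (k : ℕ) (x : ℝ) (n : ℕ) : ℕ := ⌊x * (k : ℝ) ^ n⌋₊ % k

/-- The number of the places `1 ≤ n ≤ N` such that the `l` digits of `x` in base `k` at the places
`n, n + 1, …, n + l - 1` are `w 0, w 1, …, w (l - 1)`. -/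
noncomputable def occurrences (k : ℕ) (x : ℝ) (l : ℕ) (w : Fin l → ℕ) (N : ℕ) : ℕ := by
  classical
  exact ((Icc 1 N).filter (fun n => ∀ i : Fin l, digit k x (n + i) = w i)).card

/-- The sequence `a` is `m`-automatic: there is a deterministic finite automaton with output
(finite state set `Q`, transition map `δ`, initial state `q₀`, output map `out`) which outputs
`a n` after reading the base-`m` digits of `n`, either starting from the most significant one or
starting from the least significant one. -/
def IsAutomatic (m : ℕ) (a : ℕ → ℕ) : Prop :=
  ∃ (Q : Type) (_ : Fintype Q) (δ : Q → ℕ → Q) (q₀ : Q) (out : Q → ℕ),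
    (∀ n : ℕ, a n = out ((Nat.digits m n).reverse.foldl δ q₀)) ∨
    (∀ n : ℕ, a n = out ((Nat.digits m n).foldl δ q₀))

/-- (1) There is an absolute constant `c > 0` such that for all integers `k ≥ 2`, `h ≥ 1`, every
block `w` of `l` base `k` digits occurs at least `N ^ c` times among the first `N` digits after the
radix point of the base `k` expansion of `h A_k`, for all large `N`.
(2) For all integers `k, m ≥ 2` and `h ≥ 1` the sequence of the base `k` digits of `h A_k` is not
`m`-automatic, and neither is any sequence obtained from it by deleting initial digits. -/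
theorem result :
    (∃ c : ℝ, 0 < c ∧ ∀ k h : ℕ, 2 ≤ k → 1 ≤ h → ∀ (l : ℕ) (w : Fin l → ℕ), (∀ i, w i < k) →
      ∃ N₀ : ℕ, ∀ N : ℕ, N₀ ≤ N →
        (N : ℝ) ^ c ≤ (occurrences k (h * lambertValue k) l w N : ℝ)) ∧
    (∀ k m h s : ℕ, 2 ≤ k → 2 ≤ m → 1 ≤ h →
      ¬ IsAutomatic m (fun n => digit k (h * lambertValue k) (n + s))) := by
  classical
  constructor
  · obtain ⟨c, hc, H⟩ := Pool.Agent.Y951.EB.freq
    refine ⟨c, hc, fun k h hk hh l w hw => ?_⟩
    obtain ⟨N₀, hN⟩ := H k hk h hh l (fun r => if hr : r < l then w ⟨r, hr⟩ else 0)
      (fun r hr => by simp only [hr, dif_pos]; exact hw _)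
    refine ⟨N₀, fun N hNN => (hN N hNN).trans ?_⟩
    unfold occurrences
    apply Nat.cast_le.2
    apply card_le_card
    intro n hn
    rw [mem_filter] at hn ⊢
    refine ⟨hn.1, fun i => ?_⟩
    have h1 := hn.2 i i.2
    rw [dif_pos i.2] at h1
    exact h1
  · intro k m h s hk hm hh
    exact Pool.Agent.Y951.EB.not_auto k m s h hk hm hh

end Pool.Agent.Results.MP_29e051_nt.EveryBlockOccurs
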